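import Pool.Agent.MP_5c28a4_al.H13S.Base

/-!
Finitely many conjugacy classes generate a power of `P / P'`.
-/

set_option autoImplicit false

namespace Pool.Agent.MP_5c28a4_al.H89S.StrA

open scoped commutatorElement

namespace GenA

variable {N : Type} [Group N]

theorem sup_pow {W X : Subgroup N} (hW : W.Normal) {n : ℕ} (h : ∀ x ∈ X, x ^ n ∈ W) :
    ∀ y ∈ W ⊔ X, y ^ n ∈ W := by
  intro y hy
  have h1 : QuotientGroup.mk' W y ∈ X.map (QuotientGroup.mk' W) := by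
    have := Subgroup.mem_map_of_mem (QuotientGroup.mk' W) hy
    rwa [Subgroup.map_sup, map_mk_eq_bot.2 le_rfl, bot_sup_eq] at this
  obtain ⟨x, hx, hxy⟩ := h1
  rw [← QuotientGroup.ker_mk' W, MonoidHom.mem_ker, map_pow, ← hxy, ← map_pow,
    ← MonoidHom.mem_ker, QuotientGroup.ker_mk']
  exact h x hx

/-- the elements of `H` with `n`-th power in `W`, when `H` is abelian modulo `W` -/
def powSub (H W : Subgroup N) (hW : W.Normal) (hH : ⁅H, H⁆ ≤ W) (n : ℕ) : Subgroup N where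
  carrier := {x | x ∈ H ∧ x ^ n ∈ W}
  one_mem' := ⟨H.one_mem, by rw [one_pow]; exact W.one_mem⟩
  mul_mem' := by
    rintro x y ⟨hx, hx'⟩ ⟨hy, hy'⟩
    refine ⟨H.mul_mem hx hy, ?_⟩
    have hc : Commute (QuotientGroup.mk' W x) (QuotientGroup.mk' W y) := by
      rw [← commutatorElement_eq_one_iff_commute, ← map_commutatorElement, ← MonoidHom.mem_ker,
        QuotientGroup.ker_mk']
      exact hH (Subgroup.commutator_mem_commutator hx hy)
    rw [← QuotientGroup.ker_mk' W, MonoidHom.mem_ker] at hx' hy' ⊢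
    rw [map_pow] at hx' hy' ⊢
    rw [map_mul, hc.mul_pow, hx', hy', mul_one]
  inv_mem' := by
    rintro x ⟨hx, hx'⟩
    exact ⟨H.inv_mem hx, by rw [inv_pow]; exact W.inv_mem hx'⟩

theorem powSub_normal {H W : Subgroup N} (hN : H.Normal) (hW : W.Normal) (hH : ⁅H, H⁆ ≤ W)
    (n : ℕ) : (powSub H W hW hH n).Normal :=
  ⟨fun x hx g => ⟨hN.conj_mem x hx.1 g, by rw [conj_pow]; exact hW.conj_mem _ hx.2 g⟩⟩

theorem step (hc : XCom) {K : Subgroup N} (hK : K.Normal) {m : ℕ} (hm : 0 < m) (j : ℕ)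
    (h : ∃ e : ℕ, 0 < e ∧ ∀ x ∈ K.lowerCentralSeries (j + 2), x ^ e ∈ ⁅pw K m, pw K m⁆) :
    ∃ e : ℕ, 0 < e ∧ ∀ x ∈ K.lowerCentralSeries (j + 1), x ^ e ∈ ⁅pw K m, pw K m⁆ := by
  obtain ⟨e, he, h⟩ := h
  have hP : (pw K m).Normal := pw_normal hK m
  have hA : (K.lowerCentralSeries j).Normal := lcs_normal hK j
  have hL : (K.lowerCentralSeries (j + 2)).Normal := lcs_normal hK (j + 2)
  have hAK : K.lowerCentralSeries j ≤ K := by
    rw [lcs_eq_itc]; exact itc_le hK le_rfl K j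
  have e1 : K.lowerCentralSeries (j + 1) = ⁅K.lowerCentralSeries j, K⁆ := rfl
  have e2 : K.lowerCentralSeries (j + 2) = ⁅⁅K.lowerCentralSeries j, K⁆, K⁆ := rfl
  have hP' : (⁅pw K m, pw K m⁆).Normal := inferInstance
  have hW : (⁅pw K m, pw K m⁆ ⊔ K.lowerCentralSeries (j + 2)).Normal := inferInstance
  have hAP : (⁅K.lowerCentralSeries j, pw K m⁆).Normal := inferInstance
  have h1 := hc.e1 N (K.lowerCentralSeries j) (pw K m)
    (⁅pw K m, pw K m⁆ ⊔ K.lowerCentralSeries (j + 2)) m hA hP hW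
    (le_sup_of_le_right (by
      rw [e2]
      exact Subgroup.commutator_mono (Subgroup.commutator_mono le_rfl (pw_le K m)) hAK))
    fun y hy d hd => Subgroup.mem_sup_left
      (Subgroup.commutator_mem_commutator (pow_mem_pw (hAK hy) m) hd)
  have h2 := hc.e1 N K (K.lowerCentralSeries j)
    ((⁅pw K m, pw K m⁆ ⊔ K.lowerCentralSeries (j + 2)) ⊔ ⁅K.lowerCentralSeries j, pw K m⁆) m
    hK hA inferInstance
    (le_sup_of_le_left (le_sup_of_le_right (by
      rw [e2, Subgroup.commutator_comm K (K.lowerCentralSeries j)])))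
    fun y hy d hd => Subgroup.mem_sup_right (by
      rw [Subgroup.commutator_comm]
      exact Subgroup.commutator_mem_commutator (pow_mem_pw hy m) hd)
  refine ⟨m * m * e, by positivity, fun x hx => ?_⟩
  rw [e1, Subgroup.commutator_comm] at hx
  rw [pow_mul, pow_mul]
  exact sup_pow hP' h _ (sup_pow hW h1 _ (h2 x hx))

theorem der (hc : XCom) {K : Subgroup N} (hK : K.Normal) {m : ℕ} (hm : 0 < m) (c : ℕ)
    (h : ∃ e : ℕ, 0 < e ∧ ∀ x ∈ K.lowerCentralSeries (c + 1), x ^ e ∈ ⁅pw K m, pw K m⁆) :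
    ∃ e : ℕ, 0 < e ∧ ∀ x ∈ ⁅K, K⁆, x ^ e ∈ ⁅pw K m, pw K m⁆ := by
  induction c with
  | zero => exact h
  | succ c ih => exact ih (step hc hK hm c h)

theorem transv (D : Subgroup N) (hD : D.Normal) (hf : D.FiniteIndex) :
    ∃ R : Finset N, ∀ g : N, ∃ s ∈ R, g * s⁻¹ ∈ D := by
  classical
  have : Fintype (N ⧸ D) := Fintype.ofFinite _
  refine ⟨Finset.univ.image fun q : N ⧸ D => q.out, fun g => ⟨(g : N ⧸ D).out, by simp, ?_⟩⟩
  have h1 : ((g : N ⧸ D).out)⁻¹ * g ∈ D := QuotientGroup.eq.1 (QuotientGroup.out_eq' _)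
  have h2 := hD.conj_mem _ h1 (g : N ⧸ D).out
  rwa [mul_inv_cancel_left] at h2

end GenA

open GenA in
theorem gen : SFGab → XCom → XGen := by
  intro hs hc N _ K D c m hN hK hb hm hD hf
  classical
  obtain ⟨e, he, hE⟩ := der hc hK.1 hm c (by
    obtain ⟨n, hn, h⟩ := hb
    refine ⟨n, hn, fun x hx => ?_⟩
    have hx' : x ∈ K.lowerCentralSeries c := by
      rw [lcs_eq_itc] at hx ⊢
      exact itc_succ_le hK.1 hK.1 c hx
    rw [h x hx']
    exact Subgroup.one_mem _)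
  obtain ⟨T₀, hT₀, hKT⟩ := hs N hN K hK
  obtain ⟨R, hR⟩ := transv D hD hf
  have hKn := hK.1
  have hP : (pw K m).Normal := pw_normal hK.1 m
  set Q := Subgroup.normalClosure {x | ∃ t ∈ T₀, x = t ^ m} with hQ
  have hW : (Q ⊔ ⁅K, K⁆).Normal := inferInstance
  have hW' : (Q ⊔ ⁅pw K m, pw K m⁆).Normal := inferInstance
  have h1 : K ≤ powSub K (Q ⊔ ⁅K, K⁆) hW le_sup_right m := by
    refine hKT.trans (sup_le ?_ fun x hx => ⟨Subgroup.commutator_le_left K K hx,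
      Subgroup.mem_sup_right (Subgroup.pow_mem _ hx m)⟩)
    have := powSub_normal hK.1 hW le_sup_right m
    exact Subgroup.normalClosure_le_normal fun t ht => ⟨hT₀ t ht,
      Subgroup.mem_sup_left (Subgroup.subset_normalClosure ⟨t, ht, rfl⟩)⟩
  refine ⟨m * e, (R ×ˢ T₀).image fun p => p.1 * p.2 ^ m * p.1⁻¹, by positivity, ?_, fun x hx => ?_⟩
  · intro t ht
    obtain ⟨p, hp, rfl⟩ := Finset.mem_image.1 ht
    exact hP.conj_mem _ (pow_mem_pw (hT₀ _ (Finset.mem_product.1 hp).2) m) _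
  · have h2 : x ^ m ∈ (Q ⊔ ⁅pw K m, pw K m⁆) ⊔ ⁅K, K⁆ :=
      SetLike.le_def.1 (sup_le_sup_right le_sup_left _) (h1 (pw_le K m hx)).2
    have h3 := sup_pow hW' (fun k hk => Subgroup.mem_sup_right (hE k hk)) _ h2
    rw [pow_mul]
    refine SetLike.le_def.1 (sup_le_sup_right ?_ _) h3
    rw [hQ, Subgroup.normalClosure]
    refine Subgroup.closure_mono fun y hy => ?_
    obtain ⟨_, ⟨t, ht, rfl⟩, hy⟩ := Group.mem_conjugatesOfSet_iff.1 hy
    obtain ⟨g, rfl⟩ := isConj_iff.1 hy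
    obtain ⟨s, hs, hg⟩ := hR g
    refine ⟨g * s⁻¹, hg, s * t ^ m * s⁻¹,
      Finset.mem_image.2 ⟨(s, t), Finset.mem_product.2 ⟨hs, ht⟩, rfl⟩, by group⟩

end Pool.Agent.MP_5c28a4_al.H89S.StrA
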