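import Pool.Agent.MP_5c28a4_al.H89S.Spec

/-! Finite soluble groups that are not in the variety of their proper subgroups. -/

set_option autoImplicit false

namespace Pool.Agent.MP_5c28a4_al.H89S

namespace LatA

open scoped commutatorElement

section Filt

variable {Γ Γ' : Type} [Group Γ] [Group Γ']

theorem comm_le_iff {A B N : Subgroup Γ} [N.Normal] : ⁅A, B⁆ ≤ N ↔
    ⁅A.map (QuotientGroup.mk' N), B.map (QuotientGroup.mk' N)⁆ = ⊥ := by
  rw [← Subgroup.map_commutator, Subgroup.map_eq_bot_iff, QuotientGroup.ker_mk']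

theorem three {A B C N : Subgroup Γ} [N.Normal] (h1 : ⁅⁅B, C⁆, A⁆ ≤ N) (h2 : ⁅⁅C, A⁆, B⁆ ≤ N) :
    ⁅⁅A, B⁆, C⁆ ≤ N := by
  rw [comm_le_iff, Subgroup.map_commutator] at *
  exact Subgroup.commutator_commutator_eq_bot_of_rotate h1 h2

theorem sup_comm_le {A A' B N : Subgroup Γ} [N.Normal] (h1 : ⁅A, B⁆ ≤ N) (h2 : ⁅A', B⁆ ≤ N) :
    ⁅A ⊔ A', B⁆ ≤ N := by
  rw [comm_le_iff, Subgroup.commutator_eq_bot_iff_le_centralizer] at *
  rw [Subgroup.map_sup]
  exact sup_le h1 h2

theorem lcs_add (X : Subgroup Γ) [X.Normal] : ∀ j i : ℕ,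
    ⁅X.lowerCentralSeries i, X.lowerCentralSeries j⁆ ≤ X.lowerCentralSeries (i + j + 1)
  | 0, _ => le_rfl
  | j + 1, i => by
    rw [Subgroup.commutator_comm, Subgroup.lowerCentralSeries_succ (n := j)]
    refine three ?_ ?_
    · rw [Subgroup.commutator_comm X, ← Subgroup.lowerCentralSeries_succ,
        show i + (j + 1) + 1 = i + 1 + j + 1 by ring]
      exact lcs_add X j (i + 1)
    · exact Subgroup.commutator_mono (lcs_add X j i) le_rfl

/-- filtrations -/
structure Filt (A : ℕ → Subgroup Γ) : Prop where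
  anti : ∀ k, A (k + 1) ≤ A k
  comm : ∀ i j, ∀ x ∈ A i, ∀ y ∈ A j, ⁅x, y⁆ ∈ A (i + j)

theorem Filt.le0 {A : ℕ → Subgroup Γ} (h : Filt A) {k : ℕ} {x : Γ} (hx : x ∈ A k) : x ∈ A 0 :=
  antitone_nat_of_succ_le h.anti (Nat.zero_le k) hx

theorem Filt.conj {A : ℕ → Subgroup Γ} (h : Filt A) {k : ℕ} {x a : Γ} (hx : x ∈ A 0)
    (ha : a ∈ A k) : x * a * x⁻¹ ∈ A k := by
  have := mul_mem (by simpa using h.comm 0 k x hx a ha) ha
  rwa [commutatorElement_def, inv_mul_cancel_right] at this

/-- one more direction of the cube -/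
def up {A : ℕ → Subgroup Γ} (h : Filt A) (p q : Γ' →* Γ) (k : ℕ) : Subgroup Γ' where
  carrier := {d | p d ∈ A k ∧ (p d)⁻¹ * q d ∈ A (k + 1)}
  one_mem' := by simp
  mul_mem' := by
    rintro d e ⟨h1, h2⟩ ⟨h3, h4⟩
    refine ⟨by rw [map_mul]; exact mul_mem h1 h3, ?_⟩
    have := mul_mem (h.conj (inv_mem (h.le0 h3)) h2) h4
    rw [map_mul, map_mul]
    convert this using 1
    group
  inv_mem' := by
    rintro d ⟨h1, h2⟩
    refine ⟨by rw [map_inv]; exact inv_mem h1, ?_⟩
    have := h.conj (h.le0 h1) (inv_mem h2)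
    rw [map_inv, map_inv]
    convert this using 1
    group

theorem up_filt {A : ℕ → Subgroup Γ} (h : Filt A) (p q : Γ' →* Γ) : Filt (up h p q) := by
  refine ⟨fun k d hd => ⟨h.anti k hd.1, h.anti _ hd.2⟩, ?_⟩
  rintro i j d ⟨h1, h2⟩ e ⟨h3, h4⟩
  have h5 := h.comm i j _ h1 _ h3
  refine ⟨by rw [map_commutatorElement]; exact h5, ?_⟩
  have hv : q e ∈ A j := by simpa using mul_mem h3 (h.anti j h4)
  have h6 := h.comm _ _ _ h2 _ hv
  rw [show i + 1 + j = i + j + 1 by ring] at h6
  have h7 := h.comm _ _ _ h1 _ h4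
  have := mul_mem (h.conj (inv_mem (h.le0 h5)) (h.conj (h.le0 h1) h6)) (h.conj (h.le0 h3) h7)
  rw [map_commutatorElement, map_commutatorElement]
  convert this using 1
  simp only [commutatorElement_def]
  group

end Filt

section Cube

variable {H ι : Type} [Group H] [DecidableEq ι]

/-- composition with a map of the vertices -/
def pre (σ : Finset ι → Finset ι) : (Finset ι → H) →* (Finset ι → H) where
  toFun d := fun S => d (σ S)
  map_one' := rfl
  map_mul' _ _ := rfl

/-- the cube filtration -/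
def cub (A : ℕ → Subgroup H) (h : Filt A) :
    List ι → {B : ℕ → Subgroup (Finset ι → H) // Filt B}
  | [] => ⟨fun k => Subgroup.pi Set.univ fun _ => A k,
      fun k _ hd S hS => h.anti k (hd S hS),
      fun i j _ hx _ hy S hS => h.comm i j _ (hx S hS) _ (hy S hS)⟩
  | i :: l => ⟨up (cub A h l).2 (pre fun S => S.erase i) (pre fun S => insert i S), up_filt _ _ _⟩

variable {A : ℕ → Subgroup H} (h : Filt A)

theorem const_mem : ∀ (l : List ι) (k : ℕ) (x : H), x ∈ A k → (fun _ => x) ∈ (cub A h l).1 k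
  | [], _, _, hx => fun _ _ => hx
  | i :: l, k, x, hx => ⟨const_mem l k x hx, by
      have : (pre (H := H) (fun S => S.erase i) fun _ => x)⁻¹ *
        pre (fun S => insert i S) (fun _ => x) = 1 := inv_mul_cancel _
      rw [this]
      exact one_mem _⟩

theorem edge_mem (j : ι) (x : H) (hx : x ∈ A 1) : ∀ l : List ι,
    (fun S => if j ∈ S then x else 1) ∈ (cub A h l).1 0
  | [] => fun S _ => by
      by_cases hj : j ∈ S
      · simpa [hj] using h.le0 hx
      · simp [hj]
  | i :: l => by
      by_cases hij : j = i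
      · subst hij
        have e1 : pre (H := H) (fun S => S.erase j) (fun S => if j ∈ S then x else 1) = 1 := by
          funext S; simp [pre]
        have e2 : pre (H := H) (fun S => insert j S) (fun S => if j ∈ S then x else 1) =
            fun _ => x := by
          funext S; simp [pre]
        exact ⟨by rw [e1]; exact one_mem _, by
          rw [e1, e2, inv_one, one_mul]; exact const_mem h l 1 x hx⟩
      · have e1 : pre (H := H) (fun S => S.erase i) (fun S => if j ∈ S then x else 1) =
            fun S => if j ∈ S then x else 1 := by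
          funext S; simp [pre, hij]
        have e2 : pre (H := H) (fun S => insert i S) (fun S => if j ∈ S then x else 1) =
            fun S => if j ∈ S then x else 1 := by
          funext S; simp [pre, hij]
        exact ⟨by rw [e1]; exact edge_mem j x hx l, by
          rw [e1, e2, inv_mul_cancel]; exact one_mem _⟩

theorem corner : ∀ (l : List ι), l.Nodup → ∀ (k : ℕ) (d : Finset ι → H), d ∈ (cub A h l).1 k →
    (∀ S, ∀ i ∈ l, i ∉ S → d S = 1) → ∀ S, d S ∈ A (k + l.length)
  | [], _, _, _, hd, _, S => hd S trivial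
  | i :: l, hl, k, d, hd, h0, S => by
    have e1 : pre (fun S => S.erase i) d = 1 :=
      funext fun S => h0 _ i (by simp) (by simp)
    have h2 := hd.2
    rw [e1, inv_one, one_mul] at h2
    rw [List.nodup_cons] at hl
    have h3 := corner l hl.2 (k + 1) _ h2 (fun S j hj hS => h0 (insert i S) j (by simp [hj]) (by
      rw [Finset.mem_insert, not_or]
      exact ⟨fun e => hl.1 (e ▸ hj), hS⟩)) S
    by_cases hi : i ∈ S
    · rw [List.length_cons, show k + (l.length + 1) = k + 1 + l.length by ring]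
      simpa [pre, Finset.insert_eq_of_mem hi] using h3
    · rw [h0 S i (by simp) hi]
      exact one_mem _

/-- the lemma of Higman -/
theorem higman (F : Subgroup H) [F.Normal] (c : ℕ) (hF : F.lowerCentralSeries c = ⊥)
    (T : Finset ι) (hT : c < T.card) (X E : ι → Subgroup H) (hE : ∀ i ∈ T, E i ≤ F)
    (hX : ∀ i ∈ T, ∀ j ∈ T, i ≠ j → E i ≤ X j) (htop : (⨅ i ∈ T, X i) ⊔ ⨆ i ∈ T, E i = ⊤)
    (w : FF) (hw : ∀ i ∈ T, ∀ f : FF →* H, f.range ≤ X i → f w = 1) (f : FF →* H) : f w = 1 := by
  let A : ℕ → Subgroup H := fun k => Nat.casesOn k ⊤ fun k => F.lowerCentralSeries k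
  have hA : Filt A := by
    refine ⟨fun k => ?_, fun i j x hx y hy => ?_⟩
    · cases k with
      | zero => exact le_top
      | succ k => exact F.lowerCentralSeries_antitone (Nat.le_succ k)
    · cases i with
      | zero =>
        cases j with
        | zero => trivial
        | succ j =>
          rw [zero_add]
          exact Subgroup.commutator_le_right ⊤ (F.lowerCentralSeries j)
            (Subgroup.commutator_mem_commutator hx hy)
      | succ i =>
        cases j with
        | zero =>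
          exact Subgroup.commutator_le_left (F.lowerCentralSeries i) ⊤
            (Subgroup.commutator_mem_commutator hx hy)
        | succ j =>
          rw [show i + 1 + (j + 1) = i + j + 1 + 1 by ring]
          exact lcs_add F j i (Subgroup.commutator_mem_commutator hx hy)
  let D : Subgroup (Finset ι → H) := (cub A hA T.toList).1 0 ⊓
    ⨅ (S : Finset ι) (i ∈ T) (_ : i ∉ S), (X i).comap (Pi.evalMonoidHom (fun _ => H) S)
  have hD : ∀ d, d ∈ D ↔ d ∈ (cub A hA T.toList).1 0 ∧ ∀ S, ∀ i ∈ T, i ∉ S → d S ∈ X i := by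
    intro d; simp [D, Subgroup.mem_iInf]
  have hs : ⊤ ≤ D.map (Pi.evalMonoidHom (fun _ => H) T) := by
    rw [← htop]
    refine sup_le (fun x hx => ?_) (iSup₂_le fun j hj x hx => ?_)
    · simp only [Subgroup.mem_iInf] at hx
      exact ⟨fun _ => x, (hD _).2 ⟨const_mem hA _ 0 x trivial, fun _ i hi _ => hx i hi⟩, rfl⟩
    · refine ⟨fun S => if j ∈ S then x else 1, (hD _).2 ⟨edge_mem hA j x (hE j hj hx) _,
        fun S i hi hS => ?_⟩, by simp [hj]⟩
      by_cases h1 : j ∈ S
      · simpa [h1] using hX j hj i hi (fun e => hS (e ▸ h1)) hx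
      · simp [h1]
  choose d hd1 hd2 using fun n : ℕ => hs (Subgroup.mem_top (f (FreeGroup.of n)))
  have hr : (FreeGroup.lift d).range ≤ D := FreeGroup.range_lift_le (by
    rintro _ ⟨n, rfl⟩; exact hd1 n)
  have h1 := corner hA T.toList T.nodup_toList 0 (FreeGroup.lift d w)
    ((hD _).1 (hr ⟨w, rfl⟩)).1 (fun S i hi hS => by
      rw [Finset.mem_toList] at hi
      refine hw i hi ((Pi.evalMonoidHom (fun _ => H) S).comp (FreeGroup.lift d)) ?_
      rintro _ ⟨v, rfl⟩
      exact ((hD _).1 (hr ⟨v, rfl⟩)).2 S i hi hS) T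
  have e : f = (Pi.evalMonoidHom (fun _ => H) T).comp (FreeGroup.lift d) :=
    FreeGroup.ext_hom _ _ fun n => by simpa using (hd2 n).symm
  obtain ⟨s, hs'⟩ : ∃ s, T.card = s + 1 := ⟨T.card - 1, by omega⟩
  rw [Finset.length_toList, zero_add, hs'] at h1
  have h2 : F.lowerCentralSeries s ≤ ⊥ := hF ▸ F.lowerCentralSeries_antitone (by omega)
  rw [e]
  exact h2 h1

end Cube

section Core

variable {H : Type} [Group H] [Finite H]

theorem nilp_of_le_frattini (N : Subgroup H) [N.Normal] (h : ⁅N, N⁆ ≤ frattini H) :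
    Group.IsNilpotent N := by
  refine ((Group.isNilpotent_of_finite_tfae (G := N)).out 0 3).2 ?_
  intro p hp P
  have : ((P : Subgroup N) ⊔ commutator N).Normal :=
    Subgroup.Normal.of_commutator_le _ le_sup_right
  have h1 := Sylow.normalizer_sup_eq_top' (N := (P : Subgroup N) ⊔ commutator N) P le_sup_left
  have h2 := Sylow.normalizer_sup_eq_top P
  have h3 : N ≤ Subgroup.normalizer ((P : Subgroup N).map N.subtype : Set H) ⊔ frattini H := by
    have h4 := congrArg (Subgroup.map N.subtype) h1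
    rw [← MonoidHom.range_eq_map, Subgroup.range_subtype, Subgroup.map_sup, Subgroup.map_sup,
      Subgroup.map_subtype_commutator] at h4
    refine h4.ge.trans (sup_le ?_ (sup_le ?_ (h.trans le_sup_right)))
    · exact le_sup_of_le_left (Subgroup.le_normalizer_map _)
    · exact le_sup_of_le_left Subgroup.le_normalizer
  have h5 := frattini_nongenerating (eq_top_iff.2 (h2.ge.trans (sup_le le_sup_left h3)))
  exact (Subgroup.normalizer_eq_top_iff.1 h5).of_map_subtype

theorem lcs_of_nilp {c : ℕ} (hc : ∀ p : ℕ, p.Prime → ∀ P : Subgroup H, IsPGroup p P →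
    P.lowerCentralSeries c = ⊥) (N : Subgroup H) (h : Group.IsNilpotent N) :
    N.lowerCentralSeries c = ⊥ := by
  obtain ⟨e⟩ := ((Group.isNilpotent_of_finite_tfae (G := N)).out 0 4).1 h
  have h1 : (⊤ : Subgroup (∀ p : (Nat.card N).primeFactors, ∀ P : Sylow p N,
      (P : Subgroup N))).lowerCentralSeries c = ⊥ := by
    rw [eq_bot_iff]
    intro x hx
    rw [Subgroup.mem_bot]
    funext p P
    have h2 := Subgroup.top_lowerCentralSeries_pi_le c
      (Subgroup.top_lowerCentralSeries_pi_le c hx p trivial) P trivial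
    have h3 := hc p (Nat.prime_of_mem_primeFactors p.2) _ (P.isPGroup'.map N.subtype)
    rw [← Subgroup.map_lowerCentralSeries, Subgroup.map_eq_bot_iff_of_injective _
      N.subtype_injective, ← Subgroup.top_subtype_lowerCentralSeries,
      Subgroup.map_eq_bot_iff_of_injective _ (Subgroup.subtype_injective _)] at h3
    exact h3.le h2
  have h4 := congrArg (Subgroup.map e.toMonoidHom) h1
  rw [Subgroup.map_lowerCentralSeries, Subgroup.map_top_of_surjective _ e.surjective,
    Subgroup.map_bot] at h4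
  rw [← Subgroup.top_subtype_lowerCentralSeries, h4, Subgroup.map_bot]

theorem core (hs : Group.IsSolvable H) {m c : ℕ} (hm : ∀ X : Subgroup H, IsCoatom X → X.index ≤ m)
    (hc : ∀ p : ℕ, p.Prime → ∀ P : Subgroup H, IsPGroup p P → P.lowerCentralSeries c = ⊥)
    (w : FF) (hw : ∀ X : Subgroup H, X ≠ ⊤ → ∀ f : FF →* H, f.range ≤ X → f w = 1)
    (f : FF →* H) (hf : f w ≠ 1) : (frattini H).index ≤ m.factorial ^ c := by
  classical
  obtain ⟨F, ⟨hF1, hF2⟩, hF3⟩ := Set.Finite.exists_maximal
    (Set.toFinite {N : Subgroup H | N.Normal ∧ ⁅N, N⁆ ≤ frattini H})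
    ⟨⊥, inferInstance, by simp⟩
  have hF := lcs_of_nilp hc F (nilp_of_le_frattini F hF2)
  have hex : ∃ n, ∃ T : Finset (Subgroup H), T.card = n ∧ (∀ X ∈ T, IsCoatom X) ∧
      F ⊓ ⨅ X ∈ T, X.normalCore ≤ frattini H := by
    refine ⟨_, (Set.toFinite {X : Subgroup H | IsCoatom X}).toFinset, rfl, by simp, ?_⟩
    refine inf_le_right.trans (le_iInf₂ fun X hX => ?_)
    exact (iInf₂_le X (by simpa using hX)).trans X.normalCore_le
  obtain ⟨T, hT1, hT2, hT3⟩ := Nat.find_spec hex
  let E : Subgroup H → Subgroup H := fun X => F ⊓ ⨅ Y ∈ T.erase X, Y.normalCore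
  have hEn : ∀ X, (E X).Normal := fun X =>
    Subgroup.normal_inf_normal _ _ (hK := Subgroup.normal_iInf_normal fun Y =>
      Subgroup.normal_iInf_normal fun _ => inferInstance)
  have hEX : ∀ X ∈ T, ∀ Y ∈ T, X ≠ Y → E X ≤ Y := fun X _ Y hY hne =>
    inf_le_right.trans ((iInf₂_le Y (Finset.mem_erase.2 ⟨hne.symm, hY⟩)).trans Y.normalCore_le)
  have hE : ∀ X ∈ T, X ⊔ E X = ⊤ := by
    intro X hX
    refine (hT2 X hX).2 _ (left_lt_sup.2 fun hle => ?_)
    have := hEn X
    have h1 := Nat.find_min' hex ⟨T.erase X, rfl, fun Y hY => hT2 Y (Finset.mem_of_mem_erase hY),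
      le_trans (le_inf inf_le_left (le_iInf₂ fun Y hY => ?_)) hT3⟩
    · rw [Finset.card_erase_of_mem hX, hT1] at h1
      have := Finset.card_pos.2 ⟨X, hX⟩
      omega
    · by_cases h2 : Y = X
      · rw [h2]; exact Subgroup.normal_le_normalCore.2 hle
      · exact inf_le_right.trans (iInf₂_le Y (Finset.mem_erase.2 ⟨h2, hY⟩))
  have htop : ∀ T' ⊆ T, (⨅ X ∈ T', X) ⊔ ⨆ X ∈ T', E X = ⊤ := by
    intro T'
    induction T' using Finset.induction_on with
    | empty => simp
    | insert X T' hX ih =>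
      intro hsub
      have hXT := hsub (Finset.mem_insert_self X T')
      have hsub' := (Finset.subset_insert X T').trans hsub
      rw [Finset.iInf_insert, Finset.iSup_insert, eq_top_iff, ← ih hsub', ← sup_assoc]
      refine sup_le_sup_right (fun g hg => ?_) _
      have := hEn X
      obtain ⟨x, hx, e, he, rfl⟩ := Subgroup.mem_sup_of_normal_right.1
        ((hE X hXT).ge (Subgroup.mem_top g))
      have h1 : e ∈ ⨅ Y ∈ T', Y := (le_iInf₂ fun Y hY =>
        hEX X hXT Y (hsub' hY) fun e => hX (e ▸ hY) : E X ≤ _) he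
      exact Subgroup.mul_mem_sup ⟨hx, by simpa using mul_mem hg (inv_mem h1)⟩ he
  have hcard : T.card ≤ c := by
    by_contra hlt
    exact hf (higman F c hF T (by omega) (fun X => X) E (fun _ _ => inf_le_left) hEX
      (htop T le_rfl) w (fun X hX => hw X (hT2 X hX).1) f)
  let C : Subgroup H := ⨅ X ∈ T, X.normalCore
  have hCn : C.Normal := Subgroup.normal_iInf_normal fun Y =>
    Subgroup.normal_iInf_normal fun _ => inferInstance
  let s : ℕ → Subgroup H := fun n => Nat.rec C (fun _ B => ⁅B, B⁆) n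
  have hs1 : ∀ n, (s n).Normal ∧ s n ≤ C ∧ s n ≤ derivedSeries H n := by
    intro n
    induction n with
    | zero => exact ⟨hCn, le_rfl, le_top⟩
    | succ n ih =>
      have := ih.1
      exact ⟨Subgroup.commutator_normal _ _, (Subgroup.commutator_le_left _ _).trans ih.2.1,
        Subgroup.commutator_mono ih.2.2 ih.2.2⟩
  have hs2 : ∀ n, s n ≤ frattini H → C ≤ frattini H := by
    intro n
    induction n with
    | zero => exact id
    | succ n ih =>
      intro h1
      apply ih
      obtain ⟨hn, h2, -⟩ := hs1 n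
      have h3 : ⁅s n, F⁆ ≤ frattini H := le_trans (le_inf (Subgroup.commutator_le_right (s n) F)
        ((@Subgroup.commutator_le_left _ _ (s n) F hn).trans h2)) hT3
      have h4 : ⁅s n ⊔ F, s n ⊔ F⁆ ≤ frattini H := by
        refine sup_comm_le ?_ ?_ <;> rw [Subgroup.commutator_comm]
        · exact sup_comm_le h1 (by rwa [Subgroup.commutator_comm])
        · exact sup_comm_le h3 hF2
      have h5 : s n ⊔ F ≤ F := hF3 ⟨@Subgroup.sup_normal _ _ _ _ hn hF1, h4⟩ le_sup_right
      exact (le_inf (le_sup_left.trans h5) h2).trans hT3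
  obtain ⟨n, hn⟩ := hs.solvable
  have h6 := hs2 n ((hs1 n).2.2.trans (hn ▸ bot_le))
  refine (Subgroup.index_antitone h6).trans ?_
  have h7 : C = ⨅ X : T, X.1.normalCore := by simp [C, iInf_subtype]
  rw [h7]
  refine (Subgroup.index_iInf_le _).trans ?_
  refine (Finset.prod_le_pow_card _ _ m.factorial fun X _ => ?_).trans ?_
  · have h8 : X.1.normalCore.index ∣ X.1.index.factorial := by
      rw [Subgroup.normalCore_eq_ker, Subgroup.index_ker, Subgroup.index_eq_card, ← Nat.card_perm]
      exact Subgroup.card_subgroup_dvd_card _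
    exact (Nat.le_of_dvd (Nat.factorial_pos _) h8).trans (Nat.factorial_le (hm _ (hT2 _ X.2)))
  · rw [Finset.card_univ, Fintype.card_coe]
    exact Nat.pow_le_pow_right (Nat.factorial_pos m) hcard

end Core

end LatA

end Pool.Agent.MP_5c28a4_al.H89S
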