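import Pool.Agent.MP_5c28a4_al.H88S.Core

/-! Section S0: finitely many subvarieties for a finite soluble group, and the lattice step. -/

set_option autoImplicit false

namespace Pool.Agent.MP_5c28a4_al.H89S

namespace LatA

section Words

variable {G H : Type} [Group G] [Group H]

/-- only the first `d` letters have a non-trivial value -/
def Supp (d : ℕ) (φ : FF →* H) : Prop := ∀ n, d ≤ n → φ (FreeGroup.of n) = 1

/-- delete all letters from `d` on -/
def trn (d : ℕ) : FF →* FF := FreeGroup.lift fun n => if n < d then FreeGroup.of n else 1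

/-- evaluation at all `d`-tuples -/
def ev (G : Type) [Group G] (d : ℕ) : FF →* ((Fin d → G) → G) :=
  FreeGroup.lift fun n g => if h : n < d then g ⟨n, h⟩ else 1

/-- the laws of `G` hold in `H` -/
def Law (G H : Type) [Group G] [Group H] : Prop :=
  ∀ w : FF, (∀ f : FF →* G, f w = 1) → ∀ f : FF →* H, f w = 1

theorem Supp.comp_trn {d : ℕ} {φ : FF →* H} (h : Supp d φ) : φ.comp (trn d) = φ :=
  FreeGroup.ext_hom _ _ fun n => by
    by_cases hn : n < d
    · simp [trn, hn]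
    · simp [trn, hn, h n (not_lt.1 hn)]

theorem supp_trn (d : ℕ) (f : FF →* H) : Supp d (f.comp (trn d)) := fun n hn => by
  simp [trn, not_lt.2 hn]

theorem exists_trn (w : FF) : ∃ k, ∀ k', k ≤ k' → trn k' w = w := by
  induction w using FreeGroup.induction_on with
  | C1 => exact ⟨0, fun _ _ => map_one _⟩
  | of j => exact ⟨j + 1, fun k hk => by simp [trn, Nat.lt_of_succ_le hk]⟩
  | inv_of j ih => exact ih.imp fun k h k' hk => by rw [map_inv, h k' hk]
  | mul x y hx hy =>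
    obtain ⟨a, ha⟩ := hx
    obtain ⟨b, hb⟩ := hy
    exact ⟨max a b, fun k hk => by
      rw [map_mul, ha k (le_of_max_le_left hk), hb k (le_of_max_le_right hk)]⟩

theorem ker_le (h : Law G H) {d : ℕ} {φ : FF →* H} (hφ : Supp d φ) : (ev G d).ker ≤ φ.ker := by
  intro w hw
  rw [MonoidHom.mem_ker, ← hφ.comp_trn]
  refine h (trn d w) (fun f => ?_) φ
  have e : f.comp (trn d) = (Pi.evalMonoidHom (fun _ => G) fun i : Fin d =>
      f (FreeGroup.of i)).comp (ev G d) := FreeGroup.ext_hom _ _ fun n => by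
    by_cases hn : n < d <;> simp [trn, ev, hn]
  rw [← MonoidHom.comp_apply, e, MonoidHom.comp_apply, MonoidHom.mem_ker.1 hw, map_one]

theorem exists_lift {φ : FF →* H} (hφ : Function.Surjective φ) (f : FF →* H) :
    ∃ σ : FF →* FF, φ.comp σ = f := by
  choose v hv using fun n : ℕ => hφ (f (FreeGroup.of n))
  exact ⟨FreeGroup.lift v, FreeGroup.ext_hom _ _ fun n => by simp [hv]⟩

theorem exists_supp [Finite H] (N : Subgroup H) {d : ℕ} (hd : N.index ≤ d) :
    ∃ φ : FF →* H, Supp d φ ∧ φ.range ⊔ N = ⊤ := by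
  let e := (Finite.equivFin (H ⧸ N)).symm
  refine ⟨FreeGroup.lift fun n => if h : n < Nat.card (H ⧸ N) then (e ⟨n, h⟩).out else 1,
    fun n hn => ?_, eq_top_iff.2 fun x _ => ?_⟩
  · have : ¬ n < Nat.card (H ⧸ N) := not_lt.2 (hd.trans hn)
    simp only [FreeGroup.lift_apply_of, dif_neg this]
  · obtain ⟨⟨n, hn⟩, h1⟩ := e.surjective (x : H ⧸ N)
    obtain ⟨y, hy⟩ := QuotientGroup.mk_out_eq_mul N x
    rw [show x = (x * y) * (y : H)⁻¹ by simp]
    refine Subgroup.mul_mem_sup ⟨FreeGroup.of n, ?_⟩ (inv_mem y.2)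
    simp only [FreeGroup.lift_apply_of, dif_pos hn, h1, hy]

theorem exists_sec (h : Law G H) {d : ℕ} {φ : FF →* H} (hφ : Supp d φ)
    (hs : Function.Surjective φ) : ∃ π : (ev G d).range →* H, Function.Surjective π := by
  refine ⟨MonoidHom.liftOfSurjective _ (ev G d).rangeRestrict_surjective
    ⟨φ, by rw [MonoidHom.ker_rangeRestrict]; exact ker_le h hφ⟩, fun y => ?_⟩
  obtain ⟨v, rfl⟩ := hs y
  exact ⟨(ev G d).rangeRestrict v, MonoidHom.liftOfRightInverse_comp_apply ..⟩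

end Words

section Sec

variable {G H ι : Type} [Group G] [Group H] [Finite G] [Finite ι] (K : Subgroup (ι → G))

omit [Finite G] [Finite ι] in
theorem eq_bot_of_eval {L : Subgroup K}
    (h : ∀ i, L.map ((Pi.evalMonoidHom (fun _ => G) i).comp K.subtype) = ⊥) : L = ⊥ :=
  eq_bot_iff.2 fun x hx => Subtype.ext (funext fun i => (h i).le ⟨x, hx, rfl⟩)

omit [Finite G] [Finite ι] in
theorem solv (hG : Group.IsSolvable G) : Group.IsSolvable K := by
  obtain ⟨n, hn⟩ := hG.solvable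
  exact ⟨n, eq_bot_of_eval K fun i =>
    eq_bot_iff.2 ((map_derivedSeries_le_derivedSeries _ n).trans hn.le)⟩

theorem index_le (X : Subgroup K) (hX : IsCoatom X) : X.index ≤ Nat.card G := by
  classical
  let N : Finset ι → Subgroup K := fun T =>
    ⨅ i ∈ T, ((Pi.evalMonoidHom (fun _ => G) i).comp K.subtype).ker
  have hN : ∀ T x, x ∈ N T ↔ ∀ i ∈ T, x.1 i = 1 := fun T x => by simp [N, Subgroup.mem_iInf]
  have key : ∀ T, N T ≤ X → X.index ≤ Nat.card G := by
    intro T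
    induction T using Finset.induction_on with
    | empty => exact fun h => absurd (eq_top_iff.2 fun x _ => h ((hN _ x).2 (by simp))) hX.1
    | insert i T _ ih =>
      intro h
      by_cases h1 : N T ≤ X
      · exact ih h1
      have : (N T).Normal := Subgroup.normal_iInf_normal fun _ =>
        Subgroup.normal_iInf_normal fun _ => inferInstance
      have h2 := hX.2 _ (right_lt_sup.2 h1)
      choose n hn x hx he using fun q : K ⧸ X =>
        Subgroup.mem_sup_of_normal_left.1 (h2.ge (Subgroup.mem_top q.out))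
      have h3 : ∀ q, (n q : K ⧸ X) = q := fun q => by
        rw [← QuotientGroup.mk_mul_of_mem (n q) (hx q), he, QuotientGroup.out_eq']
      refine Nat.card_le_card_of_injective (fun q : K ⧸ X => (n q).1 i) fun q q' hq => ?_
      rw [← h3 q, ← h3 q', QuotientGroup.eq]
      refine h ((hN _ _).2 fun j hj => ?_)
      rcases Finset.mem_insert.1 hj with rfl | hj
      · simpa [inv_mul_eq_one] using hq
      · exact (hN _ _).1 (mul_mem (inv_mem (hn q)) (hn q')) j hj
  have := Fintype.ofFinite ι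
  refine key Finset.univ fun x hx => ?_
  rw [show x = 1 from Subtype.ext (funext fun i => (hN _ _).1 hx i (Finset.mem_univ i))]
  exact one_mem _

theorem lcs_bot {c : ℕ} (hc : ∀ Q : Subgroup G, Group.nilpotencyClass Q ≤ c) (π : K →* H)
    (hπ : Function.Surjective π) (p : ℕ) (hp : p.Prime) (P : Subgroup H) (hP : IsPGroup p P) :
    P.lowerCentralSeries c = ⊥ := by
  have := Fact.mk hp
  obtain ⟨P', h1⟩ := hP.exists_le_sylow
  obtain ⟨Q, rfl⟩ := Sylow.mapSurjective_surjective hπ p P'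
  have h2 : (Q : Subgroup K).lowerCentralSeries c = ⊥ := eq_bot_of_eval K fun i => by
    rw [Subgroup.map_lowerCentralSeries]
    have := (Q.isPGroup'.map ((Pi.evalMonoidHom (fun _ => G) i).comp K.subtype)).isNilpotent
    exact Subgroup.lowerCentralSeries_eq_bot_of_nilpotencyClass_le (hc _)
  refine eq_bot_iff.2 ((Subgroup.lowerCentralSeries_mono c h1).trans ?_)
  show ((Q : Subgroup K).map π).lowerCentralSeries c ≤ ⊥
  rw [← Subgroup.map_lowerCentralSeries, h2, Subgroup.map_bot]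

omit K in
/-- a word that fails in a group of the variety fails in a subgroup of bounded rank -/
theorem bound (hG : Group.IsSolvable G) : ∃ d, ∀ (H : Type) [Group H], Law G H → ∀ (w : FF)
    (f : FF →* H), f w ≠ 1 → ∃ (φ : FF →* H) (σ : FF →* FF), Supp d φ ∧ φ (σ w) ≠ 1 := by
  classical
  obtain ⟨c, hc⟩ := (Set.finite_range fun Q : Subgroup G => Group.nilpotencyClass Q).bddAbove
  refine ⟨(Nat.card G).factorial ^ c, fun H _ hL w f hf => ?_⟩
  have hsub : ∀ Y : Subgroup H, Law G Y := fun Y v hv g => Subtype.ext (hL v hv (Y.subtype.comp g))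
  have hex : ∃ n, ∃ Y : Subgroup H, Finite Y ∧ Nat.card Y = n ∧ ∃ g : FF →* Y, g w ≠ 1 := by
    obtain ⟨k, hk⟩ := exists_trn w
    obtain ⟨π, hπ⟩ := exists_sec (hsub _) (d := k) (φ := (f.comp (trn k)).rangeRestrict)
      (fun n hn => Subtype.ext (supp_trn k f n hn)) (MonoidHom.rangeRestrict_surjective _)
    refine ⟨_, _, Finite.of_surjective π hπ, rfl, (f.comp (trn k)).rangeRestrict, fun h => hf ?_⟩
    simpa [hk k le_rfl] using congrArg Subtype.val h
  obtain ⟨Y, hY, hn, g, hg⟩ := Nat.find_spec hex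
  obtain ⟨ψ, hψ, hψ'⟩ := exists_supp (⊥ : Subgroup Y) le_rfl
  obtain ⟨π, hπ⟩ := exists_sec (hsub Y) hψ (MonoidHom.range_eq_top.1 (by simpa using hψ'))
  have h1 := core (H := Y) (m := Nat.card G) (c := c)
    (@Group.isSolvable_of_surjective _ _ _ _ π hπ (solv _ hG))
    (fun X hX => by
      rw [← X.index_comap_of_surjective hπ]
      exact index_le _ _ (Subgroup.isCoatom_comap_of_surjective hπ hX))
    (lcs_bot _ (fun Q => hc ⟨Q, rfl⟩) π hπ) w (fun X hX g' hg' => by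
      by_contra h
      let e := X.equivMapOfInjective Y.subtype Y.subtype_injective
      have h2 := Nat.find_min' hex ⟨X.map Y.subtype, Finite.of_equiv _ e.toEquiv, rfl,
        e.toMonoidHom.comp (g'.codRestrict X fun v => hg' ⟨v, rfl⟩), fun h3 => h (by
          simpa using congrArg Subtype.val ((map_eq_one_iff e e.injective).1 h3))⟩
      rw [← hn, ← Nat.card_congr e.toEquiv] at h2
      exact hX (Subgroup.eq_top_of_le_card X h2)) g hg
  obtain ⟨φ, h2, h3⟩ := exists_supp (frattini Y) h1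
  obtain ⟨σ, hσ⟩ := exists_lift (MonoidHom.range_eq_top.1 (frattini_nongenerating h3)) g
  refine ⟨Y.subtype.comp φ, σ, fun n hn => by simp [h2 n hn], fun h => hg ?_⟩
  rw [← hσ]
  exact Subtype.ext h

end Sec

section Lattice

open H89

/-- fully invariant -/
def FI (W : Subgroup FF) : Prop := ∀ σ : FF →* FF, ∀ w ∈ W, σ w ∈ W

/-- the laws of a class of groups -/
def laws (U : Set GrpCat.{0}) : Subgroup FF where
  carrier := {w | ∀ G ∈ U, H89.Sat G w}
  one_mem' := fun _ _ f => map_one f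
  mul_mem' := fun ha hb G hG f => by rw [map_mul, ha G hG f, hb G hG f, one_mul]
  inv_mem' := fun ha G hG f => by rw [map_inv, ha G hG f, inv_one]

theorem fi_laws (U : Set GrpCat.{0}) : FI (laws U) := fun σ _ hw G hG f => hw G hG (f.comp σ)

theorem FI.normal {W : Subgroup FF} (h : FI W) : W.Normal :=
  ⟨fun w hw g => by simpa using h (MulAut.conj g).toMonoidHom w hw⟩

theorem FI.inf {A B : Subgroup FF} (ha : FI A) (hb : FI B) : FI (A ⊓ B) :=
  fun σ w hw => ⟨ha σ w hw.1, hb σ w hw.2⟩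

theorem FI.sup {A B : Subgroup FF} (ha : FI A) (hb : FI B) : FI (A ⊔ B) := fun σ _ hw =>
  (sup_le (fun w h => Subgroup.mem_sup_left (ha σ w h))
    (fun w h => Subgroup.mem_sup_right (hb σ w h)) : A ⊔ B ≤ (A ⊔ B).comap σ) hw

theorem vr_laws {U : Set GrpCat.{0}} (hU : IsVariety U) : vr (laws U) = U := by
  obtain ⟨S, rfl⟩ := hU
  exact Set.ext fun G => ⟨fun h w hw => h w fun _ hH => hH w hw, fun h w hw => hw G h⟩

theorem quot_inV {W : Subgroup FF} [W.Normal] (h : FI W) : InV W (FF ⧸ W) := by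
  intro v hv f
  obtain ⟨σ, rfl⟩ := exists_lift (QuotientGroup.mk'_surjective W) f
  exact (QuotientGroup.eq_one_iff _).2 (h σ v hv)

theorem le_of_vr {W W' : Subgroup FF} (h : FI W') (hv : vr W' ⊆ vr W) : W ≤ W' := by
  have := h.normal
  intro w hw
  exact (QuotientGroup.eq_one_iff w).1
    (hv (a := GrpCat.of (FF ⧸ W')) (quot_inV h) w hw (QuotientGroup.mk' W'))

theorem modular {A B C : Subgroup FF} [B.Normal] (h : A ≤ C) : (A ⊔ B) ⊓ C = A ⊔ B ⊓ C := by
  refine le_antisymm (fun x hx => ?_) (sup_le (le_inf le_sup_left h)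
    (inf_le_inf_right _ le_sup_right))
  obtain ⟨a, ha, b, hb, rfl⟩ := Subgroup.mem_sup_of_normal_right.1 hx.1
  exact Subgroup.mul_mem_sup ha ⟨hb, by simpa using mul_mem (inv_mem (h ha)) hx.2⟩

/-- the fully invariant subgroup generated by a word -/
def cl (x : FF) : Subgroup FF := Subgroup.closure {y | ∃ σ : FF →* FF, y = σ x}

theorem fi_cl (x : FF) : FI (cl x) := fun σ _ hw =>
  ((Subgroup.closure_le _).2 (by
    rintro _ ⟨τ, rfl⟩
    exact Subgroup.subset_closure ⟨σ.comp τ, rfl⟩) : cl x ≤ (cl x).comap σ) hw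

theorem mem_cl (x : FF) : x ∈ cl x := Subgroup.subset_closure ⟨MonoidHom.id _, rfl⟩

theorem cl_le {x : FF} {W : Subgroup FF} (h : FI W) (hx : x ∈ W) : cl x ≤ W :=
  (Subgroup.closure_le _).2 (by rintro _ ⟨τ, rfl⟩; exact h τ x hx)

theorem coatom (hop : SOP) {A B : Subgroup FF} (hA : FI A) (hB : FI B) (hAB : A < B)
    (hs : Soluble (vr A)) (hg : GenFin A) : ∃ M, FI M ∧ A ≤ M ∧ M < B ∧
      ∀ M', FI M' → M < M' → M' ≤ B → M' = B := by
  have := hA.normal
  obtain ⟨w, hw, hw'⟩ := SetLike.exists_of_lt hAB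
  obtain ⟨H, _, hH, hH', f, hf⟩ := hg w (FF ⧸ A) (quot_inV hA) (QuotientGroup.mk' A)
    fun h => hw' ((QuotientGroup.eq_one_iff w).1 h)
  obtain ⟨d, hd⟩ := hs
  have hfin := hop H hH ⟨d, hd (GrpCat.of H) hH'⟩
  let L := laws {GrpCat.of H}
  have hL : FI L := fi_laws _
  have := hL.normal
  have h1 : {M : Subgroup FF | FI M ∧ L ⊓ B ≤ M ∧ M < B}.Finite := by
    refine Set.Finite.of_injOn (f := fun M => vr ((M ⊔ L : Subgroup FF) : Set FF)) ?_ ?_ hfin
    · intro M _
      refine ⟨⟨_, rfl⟩, fun K hK v hv => hK v (Subgroup.mem_sup_right ?_)⟩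
      rintro _ rfl
      exact hv
    · intro M hM M' hM' e
      have e' : M ⊔ L = M' ⊔ L := le_antisymm (le_of_vr (hM'.1.sup hL) e.ge)
        (le_of_vr (hM.1.sup hL) e.le)
      rw [← sup_eq_left.2 hM.2.1, ← sup_eq_left.2 hM'.2.1, ← modular hM.2.2.le,
        ← modular hM'.2.2.le, e']
  obtain ⟨M, hM, hM'⟩ := h1.exists_maximal ⟨L ⊓ B, hL.inf hB, le_rfl,
    lt_of_le_of_ne inf_le_right fun e => hf ((e.ge hw).1 _ rfl f)⟩
  refine ⟨M, hM.1, le_trans (le_inf (fun v hv => ?_) hAB.le) hM.2.1, hM.2.2,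
    fun M' h2 h3 h4 => ?_⟩
  · rintro _ rfl
    exact hH' v hv
  · by_contra h5
    exact h3.not_ge (hM' ⟨h2, hM.2.1.trans h3.le, lt_of_le_of_ne h4 h5⟩ h3.le)

end Lattice

end LatA

open LatA

theorem sop : SOP := by
  intro G _ hF hG
  obtain ⟨d, hd⟩ := bound hG
  let N : Set GrpCat.{0} → Set FF := fun U => {v | ∀ H ∈ U, ∀ φ : FF →* H, Supp d φ → φ v = 1}
  have key : ∀ U U' : Set GrpCat.{0}, H89.IsVariety U' →
      (∀ H ∈ U, ∀ w : FF, (∀ f : FF →* G, f w = 1) → H89.Sat H w) →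
      ev G d '' N U' ⊆ ev G d '' N U → U ⊆ U' := by
    rintro U _ ⟨S, rfl⟩ hU h H hH w hw f
    by_contra hf
    obtain ⟨φ, σ, h1, h2⟩ := hd H (hU H hH) w f hf
    obtain ⟨v, hv, he⟩ := h ⟨σ w, fun K hK ψ _ => hK w hw (ψ.comp σ), rfl⟩
    have h3 : v⁻¹ * σ w ∈ φ.ker := ker_le (hU H hH) h1 (by
      rw [MonoidHom.mem_ker, map_mul, map_inv, he, inv_mul_cancel])
    rw [MonoidHom.mem_ker, map_mul, map_inv, hv H hH φ h1, inv_one, one_mul] at h3
    exact h2 h3
  exact Set.Finite.of_injOn (f := fun U => ev G d '' N U) (Set.mapsTo_univ _ _)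
    (fun U hU U' hU' e => Set.Subset.antisymm (key U U' hU'.1 hU.2 e.ge) (key U' U hU.1 hU'.2 e.le))
    Set.finite_univ

theorem lat : SOP → SLat := by
  rintro hop hgf V hV ⟨d, hd⟩ hN ⟨c, hc, hc'⟩
  have hsub : ∀ A : Subgroup FF, laws V ≤ A → vr A ⊆ V := fun A hA G hG =>
    vr_laws hV ▸ fun w hw => hG w (hA hw)
  let W : ℕ → Subgroup FF := fun n => laws (c n)
  have hW : StrictMono W := fun m n h => lt_of_le_not_ge
    (fun w hw G hG => hw G ((hc' h).le hG)) fun h' => (hc' h).not_ge (by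
      rw [← vr_laws (hc m).1, ← vr_laws (hc n).1]
      exact fun G hG w hw => hG w (h' hw))
  let N : Subgroup FF := ⨆ n, W n
  have hmem : ∀ x, x ∈ N ↔ ∃ n, x ∈ W n := fun x =>
    Subgroup.mem_iSup_of_directed hW.monotone.directed_le
  have hNf : FI N := fun σ w hw => (hmem _).2 (((hmem w).1 hw).imp fun n h => fi_laws _ σ w h)
  let P : Subgroup FF × Subgroup FF → Prop := fun s => FI s.1 ∧ FI s.2 ∧ laws V ≤ s.2 ∧
    (∃ k, s.2 ≤ W k) ∧ s.1 ⊔ s.2 = N
  have step : ∀ s : {s // P s}, ∃ (s' : {s // P s}) (M : Subgroup FF) (x : FF), FI M ∧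
      s.1.2 ≤ M ∧ x ∈ s.1.1 ∧ x ∉ M ∧ s'.1.1 ≤ s.1.1 ∧ s'.1.1 ≤ M ∧ s.1.2 ≤ s'.1.2 ∧
      x ∈ s'.1.2 := by
    rintro ⟨⟨D, X⟩, hD, hX, h0, ⟨k, hk⟩, hDX⟩
    dsimp only at hD hX h0 hk hDX ⊢
    obtain ⟨M, hM, h1, h2, h3⟩ := coatom hop hX hNf
      ((hk.trans_lt (hW (Nat.lt_succ_self k))).trans_le (le_iSup W (k + 1)))
      ⟨d, fun G hG => hd G (hsub X h0 hG)⟩
      (hgf X ⟨d, fun G hG => hd G (hsub X h0 hG)⟩ fun ⟨S, hS, h⟩ => hN ⟨S, hS, fun s hs h' =>
        h s hs fun G hG => h' G (hsub X h0 hG)⟩)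
    have hDN : D ≤ N := hDX ▸ le_sup_left
    obtain ⟨x, hx, hx'⟩ := SetLike.not_le_iff_exists.1 fun h : D ≤ M =>
      h2.not_ge (hDX ▸ sup_le h h1)
    obtain ⟨k', hk'⟩ := (hmem x).1 (hDN hx)
    have h4 : cl x ⊔ M = N := h3 _ ((fi_cl x).sup hM)
      (right_lt_sup.2 fun h => hx' (h (mem_cl x))) (sup_le (cl_le hNf (hDN hx)) h2.le)
    have := hM.normal
    have h5 := modular (B := M) (cl_le hD hx)
    rw [h4, inf_eq_right.2 hDN] at h5
    refine ⟨⟨(M ⊓ D, X ⊔ cl x), hM.inf hD, hX.sup (fi_cl x), h0.trans le_sup_left,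
      ⟨max k k', sup_le (hk.trans (hW.monotone (le_max_left _ _)))
        (cl_le (fi_laws _) (hW.monotone (le_max_right _ _) hk'))⟩, ?_⟩, M, x, hM, h1, hx, hx',
      inf_le_right, inf_le_left, le_sup_left, Subgroup.mem_sup_right (mem_cl x)⟩
    show M ⊓ D ⊔ (X ⊔ cl x) = N
    rw [sup_comm X, ← sup_assoc, sup_comm _ (cl x), ← h5, hDX]
  choose F M x h1 h2 h3 h4 h5 h6 h7 h8 using step
  have h0 : laws V ≤ W 0 := fun w hw G hG => hw G ((hc 0).2 hG)
  let s : ℕ → {s // P s} := fun n => F^[n] ⟨(N, laws V), hNf, fi_laws _, le_rfl, ⟨0, h0⟩,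
    sup_eq_left.2 (h0.trans (le_iSup W 0))⟩
  have hs : ∀ n, s (n + 1) = F (s n) := fun n => Function.iterate_succ_apply' _ _ _
  have ha : Antitone fun n => (s n).1.1 := antitone_nat_of_succ_le fun n => hs n ▸ h5 (s n)
  have hb : Monotone fun n => (s n).1.2 := monotone_nat_of_le_succ fun n => hs n ▸ h7 (s n)
  have hx : ∀ i j, i ≠ j → x (s i) ∈ M (s j) := by
    intro i j hij
    rcases lt_or_gt_of_ne hij with h | h
    · have h9 : x (s i) ∈ (s (i + 1)).1.2 := by rw [hs]; exact h8 (s i)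
      exact h2 _ (hb (Nat.succ_le_of_lt h) h9)
    · have h9 : x (s i) ∈ (s (j + 1)).1.1 := ha (Nat.succ_le_of_lt h) (h3 (s i))
      rw [hs] at h9
      exact h6 _ h9
  refine hN ⟨Set.range fun i => x (s i), Set.infinite_range_of_injective fun i j e => ?_, ?_⟩
  · by_contra hij
    exact h4 (s j) (e ▸ hx i j hij)
  · rintro _ ⟨i, rfl⟩ h
    have := (h1 (s i)).normal
    have hq := quot_inV (h1 (s i))
    refine h4 (s i) ((QuotientGroup.eq_one_iff _).1 (h (GrpCat.of (FF ⧸ M (s i)))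
      (hsub _ ((s i).2.2.2.1.trans (h2 _)) hq) ?_ (QuotientGroup.mk' _)))
    rintro _ ⟨⟨j, rfl⟩, hj⟩
    exact hq _ (hx j i fun e => hj (by rw [e]; rfl))

end Pool.Agent.MP_5c28a4_al.H89S
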